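import Pool.Agent.Lib_helper51.GL.Defs

/-!
# Project GL (MP_05dcdc_nt), block QRG: the quartic symbol
-/

set_option autoImplicit false

namespace Pool.Agent.GL

open Finset Pool.Agent.PQ

/-- `J(|Y| | d) = J(Y | d)` for `d ≡ 1 mod 4` -/
theorem qrg_abs (d : ℕ) (hd : d % 4 = 1) (Y : ℤ) : jacobiSym Y d = jacobiSym (Y.natAbs : ℤ) d := by
  rcases Int.natAbs_eq Y with h | h
  · rw [← h]
  · conv_lhs => rw [h]
    rw [jacobiSym.neg _ (Nat.odd_iff.2 (by omega)), ZMod.χ₄_nat_one_mod_four hd, one_mul]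

theorem qrg_odd (d Q : ℕ) (hd4 : d % 4 = 1) (a : ℕ) (had : Nat.Coprime a d) (X Y : ℤ)
    (hXY : IsCoprime X Y) (h : (a : ℤ) ^ 2 = d * X ^ 2 + Q * Y ^ 2) (b : ℕ) (hb : Odd b) (hbY : (b : ℤ) ∣ Y) :
    jacobiSym b d = 1 := by
  have hXb : IsCoprime X (b : ℤ) := IsCoprime.of_isCoprime_of_dvd_right hXY hbY
  have hmb : IsCoprime (a : ℤ) (b : ℤ) := by
    rw [Int.isCoprime_iff_gcd_eq_one]
    by_contra hne
    obtain ⟨l, hl, hlg⟩ := Nat.exists_prime_and_dvd hne
    have h1 : (l : ℤ) ∣ (a : ℤ) := (Int.natCast_dvd_natCast.2 hlg).trans (Int.gcd_dvd_left _ _)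
    have h2 : (l : ℤ) ∣ (b : ℤ) := (Int.natCast_dvd_natCast.2 hlg).trans (Int.gcd_dvd_right _ _)
    have h3 : (l : ℤ) ∣ d * X ^ 2 := by
      have e : (d : ℤ) * X ^ 2 = (a : ℤ) ^ 2 - Q * Y ^ 2 := by rw [h]; ring
      rw [e]
      exact dvd_sub (dvd_pow h1 (by norm_num)) ((dvd_pow (h2.trans hbY) (by norm_num)).mul_left _)
    have hlp : Prime (l : ℤ) := Nat.prime_iff_prime_int.1 hl
    rcases hlp.dvd_or_dvd h3 with h4 | h4
    · have h5 : l ∣ d := Int.natCast_dvd_natCast.1 h4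
      have h6 : l ∣ a := Int.natCast_dvd_natCast.1 h1
      have := Nat.dvd_gcd h6 h5
      rw [had] at this
      exact hl.one_lt.ne' (Nat.dvd_one.1 this)
    · have h5 := hlp.dvd_of_dvd_pow h4
      exact hlp.not_isUnit (hXb.isUnit_of_dvd' h5 h2)
  have e1 : jacobiSym ((d : ℤ) * X ^ 2) b = 1 := by
    have : jacobiSym ((d : ℤ) * X ^ 2) b = jacobiSym ((a : ℤ) ^ 2) b := by
      refine jacobiSym.mod_left' ?_
      refine Int.ModEq.eq ?_
      refine (Int.modEq_iff_dvd).2 ?_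
      have e : (a : ℤ) ^ 2 - d * X ^ 2 = Q * Y ^ 2 := by rw [h]; ring
      rw [e]
      exact (dvd_pow hbY (by norm_num)).mul_left _
    rw [this]
    exact jacobiSym.sq_one' (Int.isCoprime_iff_gcd_eq_one.1 hmb)
  rw [jacobiSym.mul_left, jacobiSym.sq_one' (Int.isCoprime_iff_gcd_eq_one.1 hXb), mul_one] at e1
  rw [← jacobiSym.quadratic_reciprocity_one_mod_four hd4 hb]
  exact e1

theorem qrg_Y (d Q : ℕ) (hd4 : d % 4 = 1) (h8 : (d * Q) % 8 = 3) (a : ℕ) (had : Nat.Coprime a d)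
    (ha2 : a % 2 = 1) (X Y : ℤ)
    (hXY : IsCoprime X Y) (h : (a : ℤ) ^ 2 = d * X ^ 2 + Q * Y ^ 2) (hY0 : Y ≠ 0) :
    jacobiSym Y d = if d % 8 = 1 then 1 else -1 := by
  have hpo : Odd d := Nat.odd_iff.2 (by omega)
  rw [qrg_abs d hd4 Y]
  have hYn : Y.natAbs ≠ 0 := Int.natAbs_ne_zero.2 hY0
  obtain ⟨s, b, hb, hs⟩ := Nat.exists_eq_two_pow_mul_odd hYn
  have hbY : (b : ℤ) ∣ Y := by
    rw [Int.natCast_dvd, hs]; exact dvd_mul_left _ _
  have e : jacobiSym (Y.natAbs : ℤ) d = jacobiSym 2 d ^ s := by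
    rw [hs]; push_cast
    rw [jacobiSym.mul_left, jacobiSym.pow_left, qrg_odd d Q hd4 a had X Y hXY h b hb hbY, mul_one]
  rw [e, jacobiSym.at_two hpo]
  split_ifs with h1
  · have : ZMod.χ₈ (d : ZMod 8) = 1 := by
      have : (d : ZMod 8) = 1 := by
        have := ZMod.natCast_mod d 8
        rw [h1] at this; rw [← this]; rfl
      rw [this]; decide
    rw [this, one_pow]
  · have hp8 : d % 8 = 5 := by omega
    have hq8 : Q % 8 = 7 := by
      have := Nat.mul_mod d Q 8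
      rw [h8, hp8] at this
      have hq' : Q % 8 < 8 := Nat.mod_lt _ (by norm_num)
      interval_cases hh : Q % 8 <;> omega
    have : ZMod.χ₈ (d : ZMod 8) = -1 := by
      have : (d : ZMod 8) = 5 := by
        have := ZMod.natCast_mod d 8
        rw [hp8] at this; rw [← this]; rfl
      rw [this]; decide
    rw [this]
    have hY4 : Y % 4 = 2 := by
      obtain ⟨u', hu'⟩ : ∃ u' : ℤ, (d : ℤ) = 8 * u' + 5 := ⟨(d / 8 : ℕ), by omega⟩
      obtain ⟨c, hc⟩ : ∃ c : ℤ, (Q : ℤ) = 8 * c + 7 := ⟨(Q / 8 : ℕ), by omega⟩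
      obtain ⟨x, hx⟩ : ∃ x : ℤ, X = 4 * x + X % 4 := ⟨X / 4, by omega⟩
      obtain ⟨y, hy⟩ : ∃ y : ℤ, Y = 4 * y + Y % 4 := ⟨Y / 4, by omega⟩
      obtain ⟨u, hu⟩ : ∃ u : ℤ, (a : ℤ) = 2 * u + 1 := ⟨(a / 2 : ℕ), by omega⟩
      obtain ⟨w, hw⟩ : ∃ w : ℤ, u * (u + 1) = 2 * w := by
        obtain ⟨w, hw⟩ := Int.even_mul_succ_self u; exact ⟨w, by rw [hw]; ring⟩
      have hm8 : (a : ℤ) ^ 2 = 8 * w + 1 := by rw [hu]; nlinarith [hw]
      rw [hm8, hu', hc] at h
      have hX4 : X % 4 = 0 ∨ X % 4 = 1 ∨ X % 4 = 2 ∨ X % 4 = 3 := by omega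
      have hY4 : Y % 4 = 0 ∨ Y % 4 = 1 ∨ Y % 4 = 2 ∨ Y % 4 = 3 := by omega
      have e8 : ∀ t r : ℤ, (4 * t + r) ^ 2 = 8 * (2 * t ^ 2 + t * r) + r ^ 2 := fun t r => by ring
      by_contra hcon
      rw [hx, hy, e8, e8] at h
      generalize hA : 2 * x ^ 2 + x * (X % 4) = A at h
      generalize hB : 2 * y ^ 2 + y * (Y % 4) = B at h
      have h' : 8 * w + 1 = 8 * (u' * (8 * A + (X % 4) ^ 2) + 5 * A + c * (8 * B + (Y % 4) ^ 2) + 7 * B)
          + 5 * (X % 4) ^ 2 + 7 * (Y % 4) ^ 2 := by rw [h]; ring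
      generalize u' * (8 * A + (X % 4) ^ 2) + 5 * A + c * (8 * B + (Y % 4) ^ 2) + 7 * B = D at h'
      rcases hX4 with h2 | h2 | h2 | h2 <;> rcases hY4 with h3 | h3 | h3 | h3 <;>
        rw [h2, h3] at h' <;> omega
    have hs1 : s = 1 := by
      have hb2 : b % 2 = 1 := Nat.odd_iff.1 hb
      have hYa : Y.natAbs % 4 = 2 := by omega
      rcases s with _ | _ | s
      · rw [hs] at hYa; simp at hYa; omega
      · rfl
      · exfalso
        have : Y.natAbs = 4 * (2 ^ s * b) := by rw [hs, pow_succ, pow_succ]; ring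
        omega
    rw [hs1, pow_one]

/-- the symbol at one prime `p ∣ d` -/
theorem qrg_p (Q p : ℕ) (hp : p.Prime) (hp4 : p % 4 = 1) (a : ℕ) (hmp : Nat.Coprime a p) (X Y : ℤ) (d : ℕ)
    (hpd : p ∣ d) (h : (a : ℤ) ^ 2 = d * X ^ 2 + Q * Y ^ 2) [Decidable (Pow4 Q p)] :
    jacobiSym a p = jacobiSym Y p * (if Pow4 Q p then 1 else -1) := by
  have : Fact p.Prime := ⟨hp⟩
  have hm0 : (a : ZMod p) ≠ 0 := by
    rw [Ne, ZMod.natCast_eq_zero_iff]
    intro hd
    have := Nat.dvd_gcd hd (dvd_refl p)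
    rw [hmp] at this
    exact hp.one_lt.ne' (Nat.dvd_one.1 this)
  have hd0 : (d : ZMod p) = 0 := (ZMod.natCast_eq_zero_iff _ _).2 hpd
  have hc : (a : ZMod p) ^ 2 = Q * (Y : ZMod p) ^ 2 := by
    have := congrArg (fun z : ℤ => (z : ZMod p)) h
    push_cast at this
    rw [this, hd0]; ring
  have hYz : (Y : ZMod p) ≠ 0 := by
    intro h0; rw [h0] at hc
    apply hm0
    have : (a : ZMod p) ^ 2 = 0 := by rw [hc]; ring
    exact pow_eq_zero_iff (two_ne_zero) |>.1 this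
  set t : ZMod p := a / Y with ht
  have ht2 : t ^ 2 = Q := by
    rw [ht, div_pow, hc]; field_simp
  have ht0 : t ≠ 0 := div_ne_zero hm0 hYz
  have hneg1 : IsSquare (-1 : ZMod p) := ZMod.exists_sq_eq_neg_one_iff.2 (by omega)
  have hP4 : Pow4 Q p ↔ IsSquare t := by
    constructor
    · rintro ⟨x, hx⟩
      have e : (x ^ 2) ^ 2 = t ^ 2 := by rw [ht2, ← hx]; ring
      rcases sq_eq_sq_iff_eq_or_eq_neg.1 e with h1 | h1
      · exact ⟨x, by rw [← h1]; ring⟩
      · have : t = (-1) * x ^ 2 := by rw [h1]; ring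
        rw [this]
        exact hneg1.mul ⟨x, by ring⟩
    · rintro ⟨z, hz⟩
      exact ⟨z, by rw [← ht2, hz]; ring⟩
  have hmJ : jacobiSym a p = quadraticChar (ZMod p) (a : ZMod p) := by
    rw [← jacobiSym.legendreSym.to_jacobiSym, legendreSym]; simp
  have hYJ : jacobiSym Y p = quadraticChar (ZMod p) (Y : ZMod p) := by
    rw [← jacobiSym.legendreSym.to_jacobiSym, legendreSym]
  have htq : quadraticChar (ZMod p) t * quadraticChar (ZMod p) (Y : ZMod p) =
      quadraticChar (ZMod p) (a : ZMod p) := by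
    rw [← map_mul, ht, div_mul_cancel₀ _ hYz]
  have hsq : IsSquare t ↔ quadraticChar (ZMod p) t = 1 := (quadraticChar_one_iff_isSquare ht0).symm
  rw [hmJ, hYJ, ← htq, mul_comm]
  congr 1
  rcases quadraticChar_dichotomy ht0 with h1 | h1
  · rw [if_pos (hP4.2 (hsq.2 h1)), h1]
  · rw [if_neg (fun hh => by
      have := hsq.1 (hP4.1 hh)
      rw [h1] at this; exact absurd this (by decide)), h1]

theorem qrg_prod (a : ℤ) (S : Finset ℕ) (hS : ∀ p ∈ S, p ≠ 0) :
    jacobiSym a (∏ p ∈ S, p) = ∏ p ∈ S, jacobiSym a p := by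
  classical
  induction S using Finset.induction_on with
  | empty => simp
  | insert x s hx ih =>
    rw [Finset.prod_insert hx, Finset.prod_insert hx]
    have h1 : ∏ p ∈ s, p ≠ 0 := Finset.prod_ne_zero_iff.2 (fun p hp => hS p (Finset.mem_insert_of_mem hp))
    rw [jacobiSym.mul_right' _ (hS x (Finset.mem_insert_self _ _)) h1,
      ih (fun p hp => hS p (Finset.mem_insert_of_mem hp))]

theorem qrg_sq (a : ℤ) (d : ℕ) (hd : Squarefree d) : jacobiSym a d = ∏ p ∈ d.primeFactors, jacobiSym a p := by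
  conv_lhs => rw [← Nat.prod_primeFactors_of_squarefree hd]
  exact qrg_prod a _ (fun p hp => (Nat.prime_of_mem_primeFactors hp).ne_zero)

theorem qrg_mod (d : ℕ) (hd : Squarefree d) (h : ∀ p : ℕ, p.Prime → p ∣ d → p % 4 = 1) : d % 4 = 1 := by
  rw [← Nat.prod_primeFactors_of_squarefree hd]
  refine Finset.prod_induction (fun p => p) (fun x => x % 4 = 1) (fun x y hx hy => ?_) rfl
    (fun p hp => h p (Nat.prime_of_mem_primeFactors hp) (Nat.dvd_of_mem_primeFactors hp))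
  rw [Nat.mul_mod, hx, hy]

theorem qrg (m q : ℕ) (hf : Fam m q) (d : ℕ) (hd : d ∈ K m q) (a : ℕ) (ha : Nat.Coprime a (2 * (m * q)))
    (X Y : ℤ) (hXY : IsCoprime X Y) (h : (a : ℤ) ^ 2 = d * X ^ 2 + ((m * q / d : ℕ) : ℤ) * Y ^ 2) :
    jacobiSym a d = 1 ↔ (Even (nq m q d) ↔ d % 8 = 1) := by
  classical
  obtain ⟨hsf, hq, hq4, h8, hp1⟩ := hf
  have hdm : d ∣ m := by
    unfold K at hd
    exact Nat.dvd_of_mem_divisors (Finset.mem_filter.1 hd).1
  have hdsf : Squarefree d := hsf.squarefree_of_dvd (hdm.mul_right q)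
  have hd4 : d % 4 = 1 := qrg_mod d hdsf (fun p hp hpd => hp1 p hp (hpd.trans hdm))
  have hQ : m * q / d = m / d * q := by
    rw [Nat.div_mul_right_comm hdm]
  rw [hQ] at h
  have h8' : (d * (m / d * q)) % 8 = 3 := by
    rw [← mul_assoc, Nat.mul_div_cancel' hdm]; exact h8
  have had : Nat.Coprime a d :=
    Nat.Coprime.coprime_dvd_right ((hdm.mul_right q).mul_left 2) ha
  have ha2 : a % 2 = 1 :=
    Nat.odd_iff.1 ((Nat.coprime_two_right).1 (Nat.Coprime.coprime_dvd_right (Dvd.intro _ rfl) ha))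
  have hd0 : d ≠ 0 := hdsf.ne_zero
  by_cases hY0 : Y = 0
  · subst hY0
    have hX : IsUnit X := by
      have := isCoprime_zero_right.1 hXY; exact this
    have hX2 : X ^ 2 = 1 := by
      rcases Int.isUnit_iff.1 hX with h1 | h1 <;> rw [h1] <;> norm_num
    rw [hX2] at h
    have h' : a * a = d := by
      have : (a : ℤ) ^ 2 = d := by rw [h]; ring
      have h2 : ((a * a : ℕ) : ℤ) = (d : ℤ) := by push_cast; rw [← this]; ring
      exact_mod_cast h2
    have ha1 : a = 1 := by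
      have := hdsf a ⟨1, by rw [h', mul_one]⟩
      exact Nat.isUnit_iff.1 this
    have hd1 : d = 1 := by rw [← h', ha1]
    subst hd1
    simp [nq]
  · have hJ := qrg_Y d (m / d * q) hd4 h8' a had ha2 X Y hXY h hY0
    have e1 : jacobiSym a d = jacobiSym Y d * ∏ p ∈ d.primeFactors, (if Pow4 (m / d * q) p then (1 : ℤ) else -1) := by
      rw [qrg_sq a d hdsf, qrg_sq Y d hdsf, ← Finset.prod_mul_distrib]
      refine Finset.prod_congr rfl (fun p hp => ?_)
      have hpp := Nat.prime_of_mem_primeFactors hp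
      have hpd := Nat.dvd_of_mem_primeFactors hp
      exact qrg_p (m / d * q) p hpp (hp1 p hpp (hpd.trans hdm)) a
        (Nat.Coprime.coprime_dvd_right hpd had) X Y d hpd h
    have e2 : ∏ p ∈ d.primeFactors, (if Pow4 (m / d * q) p then (1 : ℤ) else -1) = (-1) ^ (nq m q d) := by
      rw [Finset.prod_ite, Finset.prod_const_one, one_mul, Finset.prod_const]
      unfold nq
      rfl
    rw [e1, e2, hJ]
    by_cases h1 : d % 8 = 1
    · rw [if_pos h1, one_mul]
      simp only [h1, iff_true]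
      rcases Nat.even_or_odd (nq m q d) with h2 | h2
      · rw [h2.neg_one_pow]; simp [h2]
      · rw [h2.neg_one_pow]
        simp only [Nat.not_even_iff_odd.2 h2, iff_false]; decide
    · rw [if_neg h1]
      simp only [h1, iff_false]
      rcases Nat.even_or_odd (nq m q d) with h2 | h2
      · rw [h2.neg_one_pow]
        simp only [h2, not_true, iff_false]; decide
      · rw [h2.neg_one_pow]
        simp [Nat.not_even_iff_odd.2 h2]

end Pool.Agent.GL
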